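import Pool.Agent.Run7.h894.LK.Stm

/-!
# Project LK (helper894), piece POL: from the cylindrical system to the functions of `(t, y)`
-/

set_option autoImplicit false

open MeasureTheory Set Filter Topology
open scoped Matrix

namespace Pool.Agent.Run7.h744.LK

open Pool.Agent.R117.RL Pool.Agent.Run7.H894.LK

/-- the point in the logarithmic variable -/
noncomputable def zz {k m : ℕ} (p : Sp k m) : Fin (m + 1) → ℝ := Fin.cons (Real.log ‖p.1‖) p.2

theorem ae_ne {k m : ℕ} (hk : 6 ≤ k) : ∀ᵐ p : Sp k m, p.1 ≠ 0 := by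
  obtain ⟨k', rfl⟩ : ∃ k', k = k' + 1 := ⟨k - 1, by omega⟩
  rw [ae_iff]
  have h : {p : Sp (k' + 1) m | ¬ p.1 ≠ 0} = ({0} : Set (E (k' + 1))) ×ˢ (univ : Set (Fin m → ℝ)) := by
    ext p
    simp
  rw [h, Measure.volume_eq_prod, Measure.prod_prod]
  simp

theorem t_POL (hC : S_CYL) (hR : S_GRC) (hH : S_HDY) : S_POL := by
  intro k m g l N hk hg P hS u h
  have hk' : (6 : ℝ) ≤ k := by exact_mod_cast hk
  have hk0 : 0 < k := by omega
  have hsg := sg_pos hk0
  have hq : (0 : ℝ) < g := by exact_mod_cast hg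
  obtain ⟨G, hG, hform⟩ := h.form
  have hl0 : (0 : ℝ) ≤ l := Nat.cast_nonneg l
  set a : ℝ := ((k : ℝ) - 2) / 2 with ha
  have ha0 : 0 < a := by rw [ha]; linarith
  set μ : ℝ := (l : ℝ) * ((l : ℝ) + k - 2) with hμ
  have hμ0 : 0 ≤ μ := mul_nonneg hl0 (by linarith)
  set s : ℝ := sg k / g with hs
  have hs0 : 0 < s := by positivity
  have hss : √s ^ 2 = s := Real.sq_sqrt hs0.le
  set φ : Fin N → (Fin (m + 1) → ℝ) → ℂ := fun n z =>
    ((√(sg k / g) * Real.exp (((l : ℝ) + ((k : ℝ) - 2) / 2) * z 0) : ℝ) : ℂ) *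
      G n (Real.exp (z 0), fun j => z j.succ) with hφ
  have hGR := fun n => hR k m g l hk hg P hS (G n) (hG n) (φ n) (fun z => rfl)
  have hsm : ∀ n, ContDiff ℝ 1 (φ n) := fun n => (hGR n).1
  have hcont : ∀ n, Continuous (φ n) := fun n => (hsm n).continuous
  have hcd : ∀ n (v : Fin (m + 1)), Continuous (fun z => pdc v (φ n) z) := fun n v =>
    ((hsm n).continuous_fderiv one_ne_zero).clm_apply continuous_const
  -- the products
  have hprod : ∀ a' b' (p : Sp k m), p.1 ≠ 0 →
      ∑ j, star (u a' j p) * u b' j p =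
        (((g : ℝ) / sg k / ‖p.1‖ ^ (k - 2) : ℝ) : ℂ) * (star (φ a' (zz p)) * φ b' (zz p)) := by
    intro a' b' p hp
    have hx0 : 0 < ‖p.1‖ := norm_pos_iff.2 hp
    have h1 : ∀ j, star (u a' j p) * u b' j p =
        ((P j p.1 ^ 2 : ℝ) : ℂ) * (star (G a' (‖p.1‖, p.2)) * G b' (‖p.1‖, p.2)) := by
      intro j
      rw [hform, hform]
      simp only [star_mul', Complex.star_def, Complex.conj_ofReal]
      push_cast
      ring
    rw [Finset.sum_congr rfl fun j _ => h1 j, ← Finset.sum_mul, ← Complex.ofReal_sum, hS.square]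
    have e1 : ∀ c : Fin N, φ c (zz p) =
        ((√(sg k / g) * Real.exp (((l : ℝ) + ((k : ℝ) - 2) / 2) * Real.log ‖p.1‖) : ℝ) : ℂ) *
          G c (‖p.1‖, p.2) := by
      intro c
      simp only [hφ, zz, Fin.cons_zero, Fin.cons_succ, Real.exp_log hx0]
    rw [e1, e1]
    simp only [star_mul', Complex.star_def, Complex.conj_ofReal]
    have e2 : Real.exp (((l : ℝ) + ((k : ℝ) - 2) / 2) * Real.log ‖p.1‖) ^ 2 =
        ‖p.1‖ ^ (2 * l) * ‖p.1‖ ^ (k - 2) := by
      rw [← Real.exp_nat_mul, ← pow_add]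
      have e3 : ((2 : ℕ) : ℝ) * (((l : ℝ) + ((k : ℝ) - 2) / 2) * Real.log ‖p.1‖) =
          ((2 * l + (k - 2) : ℕ) : ℝ) * Real.log ‖p.1‖ := by
        rw [Nat.cast_add, Nat.cast_sub (by omega)]
        push_cast
        ring
      rw [e3, Real.exp_nat_mul, Real.exp_log hx0]
    have e4 : (((‖p.1‖ ^ (2 * l) : ℝ)) : ℂ) =
        (((g : ℝ) / sg k / ‖p.1‖ ^ (k - 2) : ℝ) : ℂ) *
          ((√(sg k / g) * Real.exp (((l : ℝ) + ((k : ℝ) - 2) / 2) * Real.log ‖p.1‖) : ℝ) : ℂ) ^ 2 := by
      rw [← Complex.ofReal_pow, ← Complex.ofReal_mul]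
      congr 1
      rw [mul_pow, e2, Real.sq_sqrt (by positivity)]
      have := pow_pos hx0 (k - 2)
      field_simp
    rw [e4]
    ring
  have hsq : ∀ c (p : Sp k m), p.1 ≠ 0 → ∑ j, ‖u c j p‖ ^ 2 =
      (g : ℝ) / sg k / ‖p.1‖ ^ (k - 2) * ‖φ c (zz p)‖ ^ 2 := by
    intro c p hp
    have h1 := hprod c c p hp
    have h2 : ∀ w : ℂ, star w * w = ((‖w‖ ^ 2 : ℝ) : ℂ) := by
      intro w
      rw [Complex.star_def, Complex.conj_mul']
      push_cast
      rfl
    simp only [h2] at h1
    rw [← Complex.ofReal_sum, ← Complex.ofReal_mul] at h1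
    exact_mod_cast h1
  have hne := ae_ne (m := m) hk
  have hgs : (g : ℝ) / sg k * sg k = g := by field_simp
  -- transfer of integrals
  have hT : ∀ (H : (Fin (m + 1) → ℝ) → ℂ), Measurable H → ∀ F : Sp k m → ℂ, Integrable F →
      (∀ p : Sp k m, p.1 ≠ 0 → F p = H (zz p)) →
      Integrable (fun z : Fin (m + 1) → ℝ => (Real.exp ((k : ℝ) * z 0) : ℂ) * H z) ∧
      ∫ p, F p = (sg k : ℂ) * ∫ z : Fin (m + 1) → ℝ, (Real.exp ((k : ℝ) * z 0) : ℂ) * H z := by
    intro H hHm F hF hFH
    have hae : F =ᵐ[volume] fun p => H (zz p) := by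
      filter_upwards [hne] with p hp
      exact hFH p hp
    have hc := hC k m hk H hHm
    refine ⟨hc.1.1 (hF.congr hae), ?_⟩
    rw [integral_congr_ae hae]
    exact hc.2
  -- squares
  have hmeas : ∀ n j, AEStronglyMeasurable (u n j) volume := by
    intro n j
    have h1 : ContinuousOn (u n j) {p : Sp k m | p.1 ≠ 0} := by
      have h2 : u n j = fun p => G n (‖p.1‖, p.2) * (P j p.1 : ℂ) := funext (hform n j)
      rw [h2]
      apply ContinuousOn.mul
      · apply (hG n).continuousOn.comp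
        · exact ((continuous_norm.comp continuous_fst).prodMk continuous_snd).continuousOn
        · intro p hp
          exact norm_pos_iff.2 hp
      · exact (Complex.continuous_ofReal.comp
          ((hS.smooth j).continuous.comp continuous_fst)).continuousOn
    have ho : IsOpen {p : Sp k m | p.1 ≠ 0} := isOpen_ne.preimage continuous_fst
    have h2 := h1.aestronglyMeasurable (μ := volume) ho.measurableSet
    have h3 : (volume : Measure (Sp k m)).restrict {p : Sp k m | p.1 ≠ 0} = volume := by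
      rw [Measure.restrict_eq_self_of_ae_mem]
      exact hne
    rwa [h3] at h2
  have hprodint : ∀ n n' j, Integrable (fun p => star (u n j p) * u n' j p) := by
    intro n n' j
    refine Integrable.mono' ((h.square n j).add (h.square n' j)) ?_ ?_
    · exact (continuous_star.comp_aestronglyMeasurable (hmeas n j)).mul (hmeas n' j)
    · refine Eventually.of_forall fun x => ?_
      rw [norm_mul, norm_star]
      simp only [Pi.add_apply]
      nlinarith [sq_nonneg (‖u n j x‖ - ‖u n' j x‖), sq_nonneg ‖u n j x‖, sq_nonneg ‖u n' j x‖]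
  have hO : ∀ a' b', Integrable (fun z : Fin (m + 1) → ℝ =>
        (Real.exp (2 * z 0) : ℂ) * (star (φ a' z) * φ b' z)) ∧
      ∫ z, (Real.exp (2 * z 0) : ℂ) * (star (φ a' z) * φ b' z) =
        if a' = b' then (1 : ℂ) else 0 := by
    intro a' b'
    set H : (Fin (m + 1) → ℝ) → ℂ := fun z =>
      (((g : ℝ) / sg k * Real.exp (-(((k : ℝ) - 2) * z 0)) : ℝ) : ℂ) *
        (star (φ a' z) * φ b' z) with hHdef
    have hHc : Continuous H := by
      rw [hHdef]
      refine Continuous.mul ?_ ((continuous_star.comp (hcont a')).mul (hcont b'))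
      fun_prop
    have hF : Integrable (fun p => ∑ j, star (u a' j p) * u b' j p) :=
      integrable_finsetSum _ fun j _ => hprodint a' b' j
    have hFH : ∀ p : Sp k m, p.1 ≠ 0 → ∑ j, star (u a' j p) * u b' j p = H (zz p) := by
      intro p hp
      have hx0 : 0 < ‖p.1‖ := norm_pos_iff.2 hp
      rw [hprod a' b' p hp, hHdef]
      simp only
      congr 2
      have e1 : Real.exp (-(((k : ℝ) - 2) * (zz p) 0)) = (‖p.1‖ ^ (k - 2))⁻¹ := by
        have e2 : ((k : ℝ) - 2) * (zz p) 0 = ((k - 2 : ℕ) : ℝ) * Real.log ‖p.1‖ := by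
          rw [Nat.cast_sub (by omega)]
          simp [zz]
        rw [Real.exp_neg, e2, Real.exp_nat_mul, Real.exp_log hx0]
      rw [e1]
      field_simp
    obtain ⟨h1, h2⟩ := hT H hHc.measurable _ hF hFH
    have e3 : ∀ z : Fin (m + 1) → ℝ, (Real.exp ((k : ℝ) * z 0) : ℂ) * H z =
        (((g : ℝ) / sg k : ℝ) : ℂ) * ((Real.exp (2 * z 0) : ℂ) * (star (φ a' z) * φ b' z)) := by
      intro z
      rw [hHdef]
      simp only
      have e4 : Real.exp ((k : ℝ) * z 0) * ((g : ℝ) / sg k * Real.exp (-(((k : ℝ) - 2) * z 0))) =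
          (g : ℝ) / sg k * Real.exp (2 * z 0) := by
        have e5 : Real.exp (2 * z 0) =
            Real.exp ((k : ℝ) * z 0) * Real.exp (-(((k : ℝ) - 2) * z 0)) := by
          rw [← Real.exp_add]
          congr 1
          ring
        rw [e5]
        ring
      rw [← mul_assoc, ← Complex.ofReal_mul, e4, Complex.ofReal_mul, mul_assoc]
    have hgs0 : (((g : ℝ) / sg k : ℝ) : ℂ) ≠ 0 := by
      have : (g : ℝ) / sg k ≠ 0 := by positivity
      exact_mod_cast this
    refine ⟨?_, ?_⟩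
    · have h3 := h1.const_mul (((g : ℝ) / sg k : ℝ) : ℂ)⁻¹
      refine h3.congr (Eventually.of_forall fun z => ?_)
      simp only
      rw [e3 z]
      field_simp
    · simp only [e3] at h2
      rw [integral_const_mul] at h2
      rw [integral_finsetSum _ fun j _ => hprodint a' b' j] at h2
      rw [Finset.sum_congr rfl fun j _ => h.orthonormal a' b' j j] at h2
      rw [← mul_assoc, ← Complex.ofReal_mul, mul_comm (sg k), hgs] at h2
      have hgc : ((g : ℝ) : ℂ) ≠ 0 := by exact_mod_cast hq.ne'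
      by_cases hab : a' = b'
      · simp only [hab, and_self, if_true, Finset.sum_const, Finset.card_univ, Fintype.card_fin,
          nsmul_eq_mul, mul_one] at h2 ⊢
        have h4 : ((g : ℝ) : ℂ) * 1 = ((g : ℝ) : ℂ) * ∫ z, (Real.exp (2 * z 0) : ℂ) *
            (star (φ b' z) * φ b' z) := by
          rw [← h2]
          simp
        exact (mul_left_cancel₀ hgc h4).symm
      · simp only [hab, false_and, if_false, Finset.sum_const_zero] at h2 ⊢
        exact ((mul_eq_zero.1 h2.symm).resolve_left hgc)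
  -- the energy
  have hEn : ∀ c, Integrable (fun z => ‖pdc 0 (φ c) z - (a : ℂ) * φ c z‖ ^ 2 + μ * ‖φ c z‖ ^ 2 +
        Real.exp (2 * z 0) * ∑ j : Fin m, ‖pdc j.succ (φ c) z‖ ^ 2) ∧
      (g : ℝ) * ∫ z, (‖pdc 0 (φ c) z - (a : ℂ) * φ c z‖ ^ 2 + μ * ‖φ c z‖ ^ 2 +
        Real.exp (2 * z 0) * ∑ j : Fin m, ‖pdc j.succ (φ c) z‖ ^ 2) =
        ∑ j, ∫ p, gradS (u c j) p := by
    intro c
    set En : (Fin (m + 1) → ℝ) → ℝ := fun z => ‖pdc 0 (φ c) z - (a : ℂ) * φ c z‖ ^ 2 +
      μ * ‖φ c z‖ ^ 2 + Real.exp (2 * z 0) * ∑ j : Fin m, ‖pdc j.succ (φ c) z‖ ^ 2 with hEndef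
    have hEc : Continuous En := by
      rw [hEndef]
      refine Continuous.add (Continuous.add ?_ ?_) ?_
      · exact (((hcd c 0).sub (continuous_const.mul (hcont c))).norm).pow 2
      · exact continuous_const.mul ((hcont c).norm.pow 2)
      · refine Continuous.mul (by fun_prop) ?_
        exact continuous_finsetSum _ fun j _ => ((hcd c j.succ).norm).pow 2
    set H : (Fin (m + 1) → ℝ) → ℂ := fun z =>
      (((g : ℝ) / sg k * Real.exp (-((k : ℝ) * z 0)) * En z : ℝ) : ℂ) with hHdef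
    have hHc : Continuous H := by
      rw [hHdef]
      refine Complex.continuous_ofReal.comp (Continuous.mul ?_ hEc)
      fun_prop
    have hF0 : Integrable (fun p => ∑ j, gradS (u c j) p) :=
      integrable_finsetSum _ fun j _ => h.energy c j
    have hF : Integrable (fun p => ((∑ j, gradS (u c j) p : ℝ) : ℂ)) := hF0.ofReal
    have hFH : ∀ p : Sp k m, p.1 ≠ 0 → ((∑ j, gradS (u c j) p : ℝ) : ℂ) = H (zz p) := by
      intro p hp
      have hx0 : 0 < ‖p.1‖ := norm_pos_iff.2 hp
      have h1 := (hGR c).2 p hp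
      have h2 : ∀ j, u c j = fun q : Sp k m => G c (‖q.1‖, q.2) * (P j q.1 : ℂ) :=
        fun j => funext (hform c j)
      simp only [← h2] at h1
      rw [h1, hHdef]
      simp only
      congr 1
      have e1 : Real.exp (-((k : ℝ) * (zz p) 0)) = (‖p.1‖ ^ k)⁻¹ := by
        have e2 : (zz p) 0 = Real.log ‖p.1‖ := by simp [zz]
        rw [Real.exp_neg, e2, Real.exp_nat_mul, Real.exp_log hx0]
      have e3 : Real.exp (2 * (zz p) 0) = ‖p.1‖ ^ 2 := by
        have e2 : (2 : ℝ) * (zz p) 0 = ((2 : ℕ) : ℝ) * Real.log ‖p.1‖ := by simp [zz]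
        rw [e2, Real.exp_nat_mul, Real.exp_log hx0]
      rw [e1]
      simp only [hEndef]
      rw [e3, ← ha, ← hμ]
      rfl
    obtain ⟨h1, h2⟩ := hT H hHc.measurable _ hF hFH
    have e3 : ∀ z : Fin (m + 1) → ℝ, (Real.exp ((k : ℝ) * z 0) : ℂ) * H z =
        (((g : ℝ) / sg k * En z : ℝ) : ℂ) := by
      intro z
      rw [hHdef]
      simp only
      rw [← Complex.ofReal_mul]
      congr 1
      have e4 : Real.exp ((k : ℝ) * z 0) * Real.exp (-((k : ℝ) * z 0)) = 1 := by
        rw [← Real.exp_add]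
        simp
      calc Real.exp ((k : ℝ) * z 0) * ((g : ℝ) / sg k * Real.exp (-((k : ℝ) * z 0)) * En z) =
          (Real.exp ((k : ℝ) * z 0) * Real.exp (-((k : ℝ) * z 0))) * ((g : ℝ) / sg k * En z) := by
            ring
        _ = _ := by rw [e4, one_mul]
    simp only [e3] at h1 h2
    refine ⟨?_, ?_⟩
    · have h3 := h1.re
      have h4 := h3.const_mul ((g : ℝ) / sg k)⁻¹
      refine h4.congr (Eventually.of_forall fun z => ?_)
      simp only [RCLike.re_to_complex, Complex.ofReal_re]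
      field_simp
    · rw [integral_complex_ofReal, integral_complex_ofReal, ← Complex.ofReal_mul] at h2
      have h3 := Complex.ofReal_injective h2
      rw [integral_const_mul, ← mul_assoc, mul_comm (sg k), hgs,
        integral_finsetSum _ fun j _ => h.energy c j] at h3
      exact h3.symm
  have hI2 : ∀ c, Integrable (fun z : Fin (m + 1) → ℝ => Real.exp (2 * z 0) * ‖φ c z‖ ^ 2) := by
    intro c
    have h3 := (hO c c).1.re
    refine h3.congr (Eventually.of_forall fun z => ?_)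
    have h2 : star (φ c z) * φ c z = ((‖φ c z‖ ^ 2 : ℝ) : ℂ) := by
      rw [Complex.star_def, Complex.conj_mul']
      push_cast
      rfl
    simp only [h2, ← Complex.ofReal_mul, RCLike.re_to_complex, Complex.ofReal_re]
  have hHD := fun c => hH m a μ ha0 hμ0 (φ c) (hsm c) (hI2 c) (hEn c).1
  have hnu : nu k l ^ 2 = a ^ 2 + μ := by
    rw [nu, hμ, ha]
    ring
  refine ⟨φ, fun c => (hHD c).1, fun a' b' => (hO a' b').2, ?_, ?_⟩
  · intro p hp
    rw [Finset.mul_sum]
    exact Finset.sum_congr rfl fun c _ => hsq c p hp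
  · rw [Finset.mul_sum]
    refine Finset.sum_le_sum fun c _ => ?_
    rw [← (hEn c).2, hnu]
    exact mul_le_mul_of_nonneg_left (hHD c).2 hq.le

end Pool.Agent.Run7.h744.LK
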